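import Pool.Agent.H87.D3.Targets2
import Pool.Agent.H23.SN.POL

/-! Board d3h, row AVC (helper79). -/

set_option autoImplicit false

namespace Pool.Agent.H79.D3H

open MeasureTheory Metric Set Filter Topology Pool.Agent.H87.SN Pool.Agent.H87.D3
open scoped ENNReal

/-- the volume of an interval in the one dimensional euclidean space -/
lemma vol1 (c h : ℝ) : volume {z : E 1 | |z 0 - c| < h} = ENNReal.ofReal (2 * h) := by
  have hmp := PiLp.volume_preserving_toLp (Fin 1)
  have hmeas : MeasurableSet {z : E 1 | |z 0 - c| < h} := by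
    have : Measurable fun z : E 1 => |z 0 - c| := by fun_prop
    exact measurableSet_lt this measurable_const
  rw [← hmp.measure_preimage hmeas.nullMeasurableSet]
  have h1 : (WithLp.toLp 2 : (Fin 1 → ℝ) → E 1) ⁻¹' {z : E 1 | |z 0 - c| < h} =
      Set.pi univ fun _ : Fin 1 => Ioo (c - h) (c + h) := by
    ext w
    rw [mem_preimage, mem_setOf_eq, mem_univ_pi]
    constructor
    · intro hw i
      rw [Subsingleton.elim i 0]
      rw [abs_lt] at hw
      exact ⟨by linarith [hw.1], by linarith [hw.2]⟩
    · intro hw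
      rw [abs_lt]
      exact ⟨by linarith [(hw 0).1], by linarith [(hw 0).2]⟩
  rw [h1, Real.volume_pi_Ioo]
  simp only [Finset.univ_unique, Finset.prod_const, Finset.card_singleton, pow_one]
  congr 1
  ring

/-- the integral of the circumference -/
lemma circ (r : ℝ) (hr : 0 ≤ r) : ∫⁻ s in Ioi (0 : ℝ), ENNReal.ofReal (2 * Real.pi * s) *
    (if s < r then 1 else 0) = ENNReal.ofReal (Real.pi * r ^ 2) := by
  have h1 : ∫⁻ s in Ioi (0 : ℝ), ENNReal.ofReal (2 * Real.pi * s) * (if s < r then 1 else 0) =
      ∫⁻ s in Ioo (0 : ℝ) r, ENNReal.ofReal (2 * Real.pi * s) := by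
    rw [← lintegral_indicator measurableSet_Ioi, ← lintegral_indicator measurableSet_Ioo]
    refine lintegral_congr fun s => ?_
    by_cases h0 : 0 < s
    · rw [indicator_of_mem (mem_Ioi.2 h0)]
      by_cases h2 : s < r
      · rw [indicator_of_mem (mem_Ioo.2 ⟨h0, h2⟩), if_pos h2, mul_one]
      · rw [indicator_of_notMem (show s ∉ Ioo (0 : ℝ) r from fun h => h2 h.2), if_neg h2, mul_zero]
    · rw [indicator_of_notMem (show s ∉ Ioi (0 : ℝ) from fun h => h0 h),
        indicator_of_notMem (show s ∉ Ioo (0 : ℝ) r from fun h => h0 h.1)]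
  rw [h1, ← ofReal_integral_eq_lintegral_ofReal]
  · rw [← integral_Ioc_eq_integral_Ioo, ← intervalIntegral.integral_of_le hr,
      intervalIntegral.integral_const_mul, integral_id]
    congr 1
    ring
  · refine (Continuous.integrableOn_Icc (by fun_prop)).mono_set Ioo_subset_Icc_self
  · rw [Filter.EventuallyLE, ae_restrict_iff' measurableSet_Ioo]
    refine Filter.Eventually.of_forall fun s hs => ?_
    have := hs.1
    simp only [Pi.zero_apply]
    positivity

/-- the volume of a cylinder -/
lemma cyl (c r h : ℝ) (hr : 0 ≤ r) :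
    volume {y : V | rho y < r ∧ |y 2 - c| < h} =
      ENNReal.ofReal (Real.pi * r ^ 2) * ENNReal.ofReal (2 * h) := by
  classical
  have hm : MeasurableSet {q : ℝ × E 1 | q.1 < r ∧ |q.2 0 - c| < h} := by
    have h1 : Measurable fun q : ℝ × E 1 => |q.2 0 - c| := by fun_prop
    exact (measurableSet_lt measurable_fst measurable_const).inter
      (measurableSet_lt h1 measurable_const)
  have h1 := Pool.Agent.H23.SN.pf_POL 1
    (indicator {q : ℝ × E 1 | q.1 < r ∧ |q.2 0 - c| < h} 1) (measurable_one.indicator hm)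
  have h2 : ∫⁻ x : V, indicator {q : ℝ × E 1 | q.1 < r ∧ |q.2 0 - c| < h} 1 (rho x, zp x) =
      volume {y : V | rho y < r ∧ |y 2 - c| < h} := by
    have hms : MeasurableSet {y : V | rho y < r ∧ |y 2 - c| < h} := by
      have h3 : Measurable fun y : V => |y 2 - c| := by fun_prop
      exact (measurableSet_lt (Pool.Agent.H23.SN.measurable_rho 1) measurable_const).inter
        (measurableSet_lt h3 measurable_const)
    rw [← lintegral_indicator_one hms]
    refine lintegral_congr fun x => ?_
    rfl
  rw [← h2, h1]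
  have h3 : ∀ z : E 1, ∫⁻ s in Ioi (0 : ℝ), ENNReal.ofReal (2 * Real.pi * s) *
      indicator {q : ℝ × E 1 | q.1 < r ∧ |q.2 0 - c| < h} 1 (s, z) =
      indicator {z : E 1 | |z 0 - c| < h} (fun _ => ENNReal.ofReal (Real.pi * r ^ 2)) z := by
    intro z
    by_cases hz : |z 0 - c| < h
    · rw [indicator_of_mem (show z ∈ {z : E 1 | |z 0 - c| < h} from hz), ← circ r hr]
      refine lintegral_congr fun s => ?_
      congr 1
      by_cases hs : s < r
      · rw [if_pos hs, indicator_of_mem
          (show (s, z) ∈ {q : ℝ × E 1 | q.1 < r ∧ |q.2 0 - c| < h} from ⟨hs, hz⟩)]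
        rfl
      · rw [if_neg hs, indicator_of_notMem
          (show (s, z) ∉ {q : ℝ × E 1 | q.1 < r ∧ |q.2 0 - c| < h} from fun h => hs h.1)]
    · rw [indicator_of_notMem (show z ∉ {z : E 1 | |z 0 - c| < h} from fun h => hz h)]
      rw [lintegral_congr (g := fun _ => 0) (fun s => by
        rw [indicator_of_notMem
          (show (s, z) ∉ {q : ℝ × E 1 | q.1 < r ∧ |q.2 0 - c| < h} from fun h => hz h.2),
          mul_zero]), lintegral_zero]
  have hz : MeasurableSet {z : E 1 | |z 0 - c| < h} := by
    have : Measurable fun z : E 1 => |z 0 - c| := by fun_prop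
    exact measurableSet_lt this measurable_const
  rw [lintegral_congr h3, lintegral_indicator hz, setLIntegral_const, vol1]

theorem pf_AVC : T_AVC := by
  intro μ _ f h Z hf hh hh1 hZ hZ1
  set S : Set V := {y : V | rho y < h / 4 ∧ |y 2| < Z + h} with hS
  have hrm : Measurable (rho : V → ℝ) := Pool.Agent.H23.SN.measurable_rho 1
  have hSm : MeasurableSet S := by
    have h3 : Measurable fun y : V => |y 2| := by fun_prop
    exact (measurableSet_lt hrm measurable_const).inter (measurableSet_lt h3 measurable_const)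
  have hDm : MeasurableSet {x : V | rho x < 3 * h ∧ |x 2| ≤ Z} := by
    have h3 : Measurable fun y : V => |y 2| := by fun_prop
    exact (measurableSet_lt hrm measurable_const).inter (measurableSet_le h3 measurable_const)
  have hPm : MeasurableSet {p : V × V | dist p.1 p.2 < 6 * h} :=
    measurableSet_lt (measurable_fst.dist measurable_snd) measurable_const
  -- Tonelli
  have hT : ∫⁻ y in S, ∫⁻ x in ball y (6 * h), f x ∂μ =
      ∫⁻ x, f x * volume (S ∩ ball x (6 * h)) ∂μ := by
    have h1 : ∀ y : V, ∫⁻ x in ball y (6 * h), f x ∂μ =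
        ∫⁻ x, f x * indicator {p : V × V | dist p.1 p.2 < 6 * h} 1 (x, y) ∂μ := by
      intro y
      rw [← lintegral_indicator measurableSet_ball]
      refine lintegral_congr fun x => ?_
      by_cases hx : x ∈ ball y (6 * h)
      · rw [indicator_of_mem hx, indicator_of_mem
          (show (x, y) ∈ {p : V × V | dist p.1 p.2 < 6 * h} from mem_ball.1 hx)]
        simp
      · rw [indicator_of_notMem hx, indicator_of_notMem
          (show (x, y) ∉ {p : V × V | dist p.1 p.2 < 6 * h} from fun h => hx (mem_ball.2 h)),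
          mul_zero]
    rw [lintegral_congr h1, lintegral_lintegral_swap]
    · refine lintegral_congr fun x => ?_
      have hfx : Measurable fun y : V =>
          indicator {p : V × V | dist p.1 p.2 < 6 * h} (1 : V × V → ℝ≥0∞) (x, y) :=
        (measurable_one.indicator hPm).comp (measurable_const.prodMk measurable_id)
      rw [lintegral_const_mul _ hfx]
      congr 1
      have h2 : ∀ y : V, indicator {p : V × V | dist p.1 p.2 < 6 * h} (1 : V × V → ℝ≥0∞) (x, y) =
          indicator (ball x (6 * h)) 1 y := by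
        intro y
        by_cases hy : y ∈ ball x (6 * h)
        · rw [indicator_of_mem hy, indicator_of_mem]
          · rfl
          · show dist x y < 6 * h
            rw [dist_comm]
            exact mem_ball.1 hy
        · rw [indicator_of_notMem hy, indicator_of_notMem]
          intro h3
          apply hy
          rw [mem_ball, dist_comm]
          exact h3
      rw [lintegral_congr h2, lintegral_indicator_one measurableSet_ball,
        Measure.restrict_apply measurableSet_ball, inter_comm]
    · refine Measurable.aemeasurable ?_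
      exact (hf.comp measurable_snd).mul ((measurable_one.indicator hPm).comp
        (measurable_snd.prodMk measurable_fst))
  rw [hT, ← lintegral_const_mul']
  swap
  · exact ENNReal.ofReal_ne_top
  rw [← lintegral_indicator hDm]
  refine lintegral_mono fun x => ?_
  by_cases hx : x ∈ {x : V | rho x < 3 * h ∧ |x 2| ≤ Z}
  swap
  · rw [indicator_of_notMem hx]
    exact zero_le
  rw [indicator_of_mem hx]
  have hsub : {y : V | rho y < h / 4 ∧ |y 2 - x 2| < h} ⊆ S ∩ ball x (6 * h) := by
    rintro y ⟨hy1, hy2⟩
    refine ⟨⟨hy1, ?_⟩, ?_⟩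
    · calc |y 2| = |(y 2 - x 2) + x 2| := by ring_nf
        _ ≤ |y 2 - x 2| + |x 2| := abs_add_le _ _
        _ < Z + h := by linarith [hx.2]
    · rw [mem_ball, EuclideanSpace.dist_eq, Real.sqrt_lt' (by linarith)]
      have hx1 : x 0 ^ 2 + x 1 ^ 2 < (3 * h) ^ 2 := by
        have h1 := hx.1
        unfold rho at h1
        rwa [Real.sqrt_lt' (by linarith)] at h1
      have hy3 : y 0 ^ 2 + y 1 ^ 2 < (h / 4) ^ 2 := by
        unfold rho at hy1
        rwa [Real.sqrt_lt' (by linarith)] at hy1
      have h4 : (y 2 - x 2) ^ 2 < h ^ 2 := by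
        rw [← sq_abs (y 2 - x 2)]
        exact pow_lt_pow_left₀ hy2 (abs_nonneg _) (by norm_num)
      have h5 : ∑ i : Fin (1 + 2), dist (y i) (x i) ^ 2 =
          (y 0 - x 0) ^ 2 + (y 1 - x 1) ^ 2 + (y 2 - x 2) ^ 2 := by
        simp only [Real.dist_eq, sq_abs]
        exact Fin.sum_univ_three (fun i : Fin 3 => (y i - x i) ^ 2)
      have h6 : ∑ i : Fin (1 + 2), dist (y.ofLp i) (x.ofLp i) ^ 2 =
          (y 0 - x 0) ^ 2 + (y 1 - x 1) ^ 2 + (y 2 - x 2) ^ 2 := h5
      rw [h6]
      nlinarith [sq_nonneg (y 0 + x 0), sq_nonneg (y 1 + x 1), sq_nonneg h]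
  have hvol : ENNReal.ofReal (h ^ 3 / 3) ≤ volume (S ∩ ball x (6 * h)) := by
    refine le_trans ?_ (measure_mono hsub)
    rw [cyl (x 2) (h / 4) h (by linarith), ← ENNReal.ofReal_mul (by positivity)]
    refine ENNReal.ofReal_le_ofReal ?_
    have hpi := Real.pi_gt_d2
    have h3 : 0 < h ^ 3 := by positivity
    nlinarith
  have hone : 1 ≤ ENNReal.ofReal (3 / h ^ 3) * volume (S ∩ ball x (6 * h)) := by
    refine le_trans ?_ (mul_le_mul_right hvol _)
    rw [← ENNReal.ofReal_mul (by positivity)]
    have h1 : 3 / h ^ 3 * (h ^ 3 / 3) = 1 := by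
      field_simp
    rw [h1, ENNReal.ofReal_one]
  calc f x = f x * 1 := (mul_one _).symm
    _ ≤ f x * (ENNReal.ofReal (3 / h ^ 3) * volume (S ∩ ball x (6 * h))) :=
        mul_le_mul_right hone _
    _ = ENNReal.ofReal (3 / h ^ 3) * (f x * volume (S ∩ ball x (6 * h))) := by ring

end Pool.Agent.H79.D3H
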